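import Pool.Agent.Work.MP_db9399_ox.Interface
import Pool.Agent.Work.MP_db9399_og.Interface2
import Pool.Agent.Work.MP_db9399_eo.Interface

/-!
# MP_db9399, the outside stage with H (helper35)

`VH` = H-vertices, `Hm` = edges of H (deleted from everything after AN), `X u` = colours of the
rounds which are not used at `u` (own colour, colour of the edge of H). Engine: `eo`, occupied sets
`oc b`. See OUT.md.
-/

set_option autoImplicit false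

namespace Pool.Agent.Work.MP_db9399_h

open Finset Classical
open Pool.Agent.Work.MP_db9399_all (nb mis)
open Pool.Agent.Work.MP_db9399_cg (cdg pk sx sp)
open Pool.Agent.Work.MP_db9399_sg
open Pool.Agent.Work.MP_db9399_ox (sdg sgP Cls Krn Mt1 GG nnj rcl)
open Pool.Agent.Work.MP_db9399_og (Flw)
open Pool.Agent.Work.MP_db9399_owc (Cap)
open Pool.Agent.Work.MP_db9399_eo

universe u

section Defs

variable {V I I' J : Type u} [Fintype V] [Fintype I] [Fintype I'] [Fintype J]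

/-- H in the rounds. `E` = real edges. -/
structure HDa {P : ℕ} (E Hm : SimpleGraph V) (VH : Finset V) (X : V → Finset (Fin P)) : Prop where
  spr : ∀ v, (insert v (nb E v) ∩ VH).card ≤ 2
  Hm1 : ∀ v w, Hm.Adj v w → v ∈ VH
  Hm2 : ∀ v, (nb Hm v).card ≤ 1
  X0 : ∀ v, v ∉ VH → X v = ∅
  X2 : ∀ v, (X v).card ≤ 2

/-- `sg.Wld` without what only AN needs, degrees with slack -/
structure WldH (H Gh : SimpleGraph V) (O A : Finset V) (nd : V → Option (I × Bool)) (D : ℕ)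
    (β C : ℝ) : Prop where
  HG : H ≤ Gh
  OA : O ⊆ A
  nA : ∀ v, nd v ≠ none → v ∈ A
  cov : ∀ v ∈ A, v ∈ O ↔ nd v = none
  sup : ∀ v w, Gh.Adj v w → v ∈ A
  gad : ∀ v w, Gh.Adj v w → ¬ H.Adj v w → ∃ i s, nd v = some (i, s) ∧ nd w = some (i, !s)
  dhi : ∀ v ∈ A, (nb Gh v).card ≤ D
  dlo : ∀ v ∈ A, D ≤ (nb Gh v).card + 2
  lgt : ∀ v, v ∉ O → ((nb H v).card : ℝ) ≤ β * D
  sz : ∀ i, (nsd nd i false).card = (nsd nd i true).card
  sz1 : ∀ i s, 8 * D ≤ (nsd nd i s).card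
  sz2 : ∀ i s, ((nsd nd i s).card : ℝ) ≤ C * D

/-- `ox.Cls` after the deletion of the edges of H -/
structure ClsH (H Gh : J → SimpleGraph V) (O W VH : Finset V) (A : J → Finset V)
    (nd : J → V → Option (I × Bool)) (pr : I → I') (d : ℕ) (D r : J → ℕ)
    (a β C C' : ℝ) : Prop where
  wld : ∀ j, WldH (H j) (Gh j) O (A j) (nd j) (D j) β C'
  OW : O ⊆ W
  HW : ∀ j v w, (H j).Adj v w → v ∈ W
  VW : VH ⊆ W
  dum : ∀ j v w, (Gh j).Adj v w → ¬ (H j).Adj v w → v ∉ W ∨ w ∉ W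
  one : ∀ j j' v, v ∉ W → v ∈ A j → v ∈ A j' → j = j'
  dis : ∀ j j' v w, j ≠ j' → (H j).Adj v w → ¬ (H j').Adj v w
  lgt : ∀ j v, nd j v ≠ none → 8 * (nb (H j) v).card ≤ D j
  sz : ∀ j i s s', 20 * D j + 8 * (nsd (nd j) i s ∩ W).card ≤ (nsd (nd j) i s').card
  bal : ∀ j i, |sdg (H j) (nd j) i| ≤ 2 * D j
  vhn : ∀ j i, ((VH ∩ nod (nd j) i).card : ℝ) ≤ C'
  prc : ∀ i', (univ.filter fun i => pr i = i').card ≤ 2
  Dd : ∀ j, D j ≤ d ∧ (d : ℝ) ≤ C * D j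
  Jc : (Fintype.card J : ℝ) ≤ C
  rr : ∀ j, Odd (r j) ∧ 2 * (D j : ℝ) ^ (1 - a) ≤ r j ∧ (r j : ℝ) + 2 ≤ (D j : ℝ) ^ (1 - a / 3)
  rd : ∀ j, (d : ℝ) ^ (1 - a) ≤ r j

/-- `sg.ResN` after the deletion of the edges of H -/
structure ResH (H Gh S : SimpleGraph V) (O A : Finset V) (D r : ℕ) (a βS ρ2 : ℝ)
    (K : Finset V) : Prop where
  sub : S ≤ Gh
  lg : ∀ v, v ∉ O → (((nb S v).filter fun w => H.Adj v w).card : ℝ) ≤
    (2 * ((nb H v).card / D) + ρ2) * r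
  rlo : (D : ℝ) ^ (1 - a) ≤ r
  rhi : (r : ℝ) ≤ (D : ℝ) ^ (1 - a / 3)
  sup : ∀ v w, S.Adj v w → v ∈ A
  lo : ∀ v ∈ A, r ≤ (nb S v).card + 2
  hi : ∀ v, (nb S v).card ≤ r + 2
  cr : ∀ v, v ∉ O → ((nb S v ∩ O).card : ℝ) ≤ βS * r
  K1 : ∀ v ∈ K, ∀ w ∈ K, ¬ S.Adj v w
  K2 : ∀ v ∈ A, v ∉ K → (r : ℝ) / 130 ≤ ((nb S v ∩ K).card : ℝ)
  K3 : ∀ v ∈ A, (r : ℝ) / 4 ≤ ((nb S v \ K).card : ℝ)

/-- number of the edges of `H - S` at `v` without a colour -/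
noncomputable def unc {P : ℕ} (H S : SimpleGraph V) (N0 : Fin P → V → V) (v : V) : ℕ :=
  ((nb H v).filter fun w => ¬ S.Adj v w ∧ ¬ ∃ b, N0 b v = w).card

/-- number of the colours `b` of class `j` in which `v` loses its partner by H -/
noncomputable def dsp {P : ℕ} (cl : Fin P → J) (X : V → Finset (Fin P)) (N0 : Fin P → V → V)
    (j : J) (v : V) : ℕ := (univ.filter fun b => cl b = j ∧ b ∈ X (N0 b v)).card

/-- Star tests: `g t u x b ≥ 0` is counted when the star edge `ux`, `u ∈ VH`, has the colour `b`,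
`h t u x ≥ 0` when it has no colour. `σ t` = bound. -/
structure StT {P : ℕ} {τ : Type u} [Fintype τ] (g : τ → V → V → Fin P → ℝ) (h : τ → V → V → ℝ)
    (σ : τ → ℝ) (D : ℕ) (a : ℝ) : Prop where
  g0 : ∀ t u x b, 0 ≤ g t u x b
  h0 : ∀ t u x, 0 ≤ h t u x
  gs : ∀ t u x b, g t u x b ≤ σ t
  hs : ∀ t u x, h t u x ≤ σ t
  supp : ∀ t, ((univ.filter fun y : V × V => (∃ b, g t y.1 y.2 b ≠ 0) ∨ h t y.1 y.2 ≠ 0).card : ℝ) ≤
    sx D a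
  mult : ∀ y : V × V, ((univ.filter fun t => (∃ b, g t y.1 y.2 b ≠ 0) ∨ h t y.1 y.2 ≠ 0).card : ℝ) ≤
    sx D a

/-- The matchings `N0 b` of the real edges outside the reserves. Some star edges have no colour. -/
structure Mt0H {P : ℕ} (H S : J → SimpleGraph V) (cl : Fin P → J) (O VH : Finset V)
    (X : V → Finset (Fin P)) (nd : J → V → Option (I × Bool)) (pr : I → I') (d : ℕ) (D r : J → ℕ)
    (a ε1 ρ1 : ℝ) (L : ℕ) (N0 : Fin P → V → V) : Prop where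
  NN : ∀ b v, N0 b (N0 b v) = v
  NG : ∀ b v, N0 b v ≠ v → (H (cl b)).Adj v (N0 b v) ∧ ¬ (S (cl b)).Adj v (N0 b v)
  Nd : ∀ b b' v, N0 b v ≠ v → N0 b v = N0 b' v → b = b'
  co : ∀ j v w, (H j).Adj v w → ¬ (S j).Adj v w → v ∉ VH → w ∉ VH → ∃ b, cl b = j ∧ N0 b v = w
  sum : ∀ j i, |∑ b with cl b = j, (sgn (nd j) N0 i b : ℝ) - sdg (H j) (nd j) i| ≤ ρ1 * d
  win : ∀ b i, |(sgn (nd (cl b)) N0 i b : ℝ) - sdg (H (cl b)) (nd (cl b)) i /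
    ((D (cl b) : ℝ) - r (cl b))| ≤ sp d a
  winS : ∀ j i, ∑ b with cl b = j, |(sgn (nd j) N0 i b : ℝ) - sdg (H j) (nd j) i /
    ((D j : ℝ) - r j)| ≤ (1 + ε1) * ((D j : ℝ) - r j) + ρ1 * d
  winE : ∀ j i, ∑ b with cl b = j, max (|(sgn (nd j) N0 i b : ℝ) - sdg (H j) (nd j) i /
    ((D j : ℝ) - r j)| - (2 + ρ1)) 0 ≤ ρ1 * d
  winPS : ∀ j i', ∑ b with cl b = j, |sgP (nd j) pr N0 i' b - (∑ i with pr i = i',
    sdg (H j) (nd j) i) / ((D j : ℝ) - r j)| ≤ (1 + ε1) * ((D j : ℝ) - r j) + ρ1 * d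
  load : ∀ b i s, (((nsd (nd (cl b)) i s).filter fun v => N0 b v ≠ v).card : ℝ) ≤
    8 * ((∑ v ∈ nsd (nd (cl b)) i s, ((nb (H (cl b)) v).card : ℝ)) /
      ((D (cl b) : ℝ) - r (cl b))) + sp d a
  tok : ∀ b v, (((nb (S (cl b)) v ∩ O).filter fun w => N0 b w = w).card : ℝ) ≤ sp d a
  tkc : ∀ j, ∀ x ∈ O, (univ.filter fun b => cl b = j ∧ N0 b x = x).card ≤ 6 + unc (H j) (S j) N0 x
  tst : ∀ j v, ∑ b with cl b = j, |∑ x ∈ O.filter (fun x => N0 b x = x),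
    (k0 (S j) (r j) L v x - k1 (S j) (r j) L v x)| ≤ ε1
  un1 : ∀ j x, (unc (H j) (S j) N0 x : ℝ) ≤ sp d a
  unk : ∀ j v, ∑ x ∈ O, (k0 (S j) (r j) L v x + k1 (S j) (r j) L v x) *
    (unc (H j) (S j) N0 x : ℝ) ≤ ε1
  un2 : ∀ j v, ∑ x ∈ O, (k0 (S j) (r j) L v x + k1 (S j) (r j) L v x) ^ 2 *
    (unc (H j) (S j) N0 x : ℝ) ≤ ε1 / d
  unS : ∀ j j' y, ∑ x ∈ nb (S j) y, (unc (H j') (S j') N0 x : ℝ) ≤ r j
  xk : ∀ j v, ∑ x ∈ O, (k0 (S j) (r j) L v x + k1 (S j) (r j) L v x) * (dsp cl X N0 j x : ℝ) ≤ ε1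
  x2 : ∀ j v, ∑ x ∈ O, (k0 (S j) (r j) L v x + k1 (S j) (r j) L v x) ^ 2 * (dsp cl X N0 j x : ℝ) ≤
    ε1 / d
  xc : ∀ b y, (((nb (S (cl b)) y).filter fun x => b ∈ X (N0 b x)).card : ℝ) ≤ sp d a
  xn : ∀ b i, (((nod (nd (cl b)) i).filter fun x => b ∈ X (N0 b x)).card : ℝ) ≤ sp d a
  xns : ∀ j i, ∑ b with cl b = j, (((nod (nd j) i).filter fun x => b ∈ X (N0 b x)).card : ℝ) ≤
    ε1 * d

/-- occupied vertices: own colour or colour of H -/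
noncomputable def ocH {P : ℕ} (c : V → Option (Fin P)) (X : V → Finset (Fin P)) (b : Fin P) :
    Finset V := univ.filter fun v => c v = some b ∨ b ∈ X v

/-- the matchings without the edges at `Dr b` -/
noncomputable def cutN {P : ℕ} (Dr : Fin P → Finset V) (N : Fin P → V → V) (b : Fin P) (v : V) :
    V := if v ∈ Dr b then v else N b v

/-- the vertices which lose their edge of colour `b` in `N` -/
noncomputable def losH {P : ℕ} (oc Dr : Fin P → Finset V) (N : Fin P → V → V) (b : Fin P) :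
    Finset V := univ.filter fun v => v ∈ Dr b ∨ v ∈ oc b ∨ N b v ∈ oc b

/-- The own colours of the vertices of `U ⊆ O - VH`, and cut edges `Dr` (at vertices which had a
forbidden own colour and got another one). `E` = all real edges. -/
structure Own1H {P : ℕ} (E : SimpleGraph V) (H S : J → SimpleGraph V) (cl : Fin P → J)
    (O U VH : Finset V) (X Fb : V → Finset (Fin P)) (nd : J → V → Option (I × Bool)) (d : ℕ)
    (r : J → ℕ) (a C C2 e2 ε1 : ℝ) (L : ℕ) (c : V → Option (Fin P)) (Dr : Fin P → Finset V)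
    (N : Fin P → V → V) : Prop where
  UO : U ⊆ O
  UV : ∀ v ∈ U, v ∉ VH
  dom : ∀ v, c v ≠ none ↔ v ∈ U
  cp : ∀ v w, E.Adj v w → c v ≠ none → c v ≠ c w
  cf : ∀ v, ∀ b ∈ Fb v, c v ≠ some b
  Dr2 : ∀ b v, v ∈ Dr b → N b v ∈ Dr b ∧ N b v ≠ v
  own : OwnO (GG E O S N) S cl O d r a C (ocH c X) (cutN Dr N)
  ow : ∀ b y, (((nb (S (cl b)) y).filter fun x => x ∈ ocH c X b ∨
    (x ∉ O ∧ x ∈ losH (ocH c X) Dr N b)).card : ℝ) ≤ sp d a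
  tst : ∀ j v, ∑ b with cl b = j, |∑ x ∈ tkO O (ocH c X) (cutN Dr N) b,
      (k0 (S j) (r j) L v x - k1 (S j) (r j) L v x)| ≤
    ∑ b with cl b = j, |∑ x ∈ O.filter (fun x => N b x = x),
      (k0 (S j) (r j) L v x - k1 (S j) (r j) L v x)| + ε1
  mlt : ∀ j v, ∑ x ∈ O, (k0 (S j) (r j) L v x + k1 (S j) (r j) L v x) ^ 2 *
    ((univ.filter fun b => cl b = j ∧ x ∈ tkO O (ocH c X) (cutN Dr N) b).card : ℝ) ≤ e2 / d
  vdc : ∀ v, ((univ.filter fun b => v ∈ losH (ocH c X) Dr N b).card : ℝ) ≤ sp d a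
  ndc : ∀ b i, (((nod (nd (cl b)) i).filter fun v => v ∈ losH (ocH c X) Dr N b).card : ℝ) ≤
    sp d a
  nds : ∀ j i, ∑ b with cl b = j, (((nod (nd j) i).filter fun v =>
    v ∈ losH (ocH c X) Dr N b).card : ℝ) ≤
    C2 * ((∑ v ∈ nod (nd j) i, ((nb (H j) v).card : ℝ)) / d) + ε1 * d

/-- The real part after the engine (`ox.Rl` with occupied sets). -/
structure RlH {P : ℕ} (E : SimpleGraph V) (H : J → SimpleGraph V) (cl : Fin P → J) (O : Finset V)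
    (nd : J → V → Option (I × Bool)) (pr : I → I') (d : ℕ) (D r : J → ℕ) (m : J → I → ℕ)
    (ε ε2 C₀ : ℝ) (oc : Fin P → Finset V) (f : Fin P → V → V) : Prop where
  ff : ∀ b v, f b (f b v) = v
  fG : ∀ b v, f b v ≠ v → (H (cl b)).Adj v (f b v)
  fd : ∀ b b' v, f b v ≠ v → f b v = f b' v → b = b'
  fo : ∀ b, ∀ v ∈ oc b, f b v = v
  mis : ∀ v ∈ O, (univ.filter fun b => f b v = v ∧ v ∉ oc b).card ≤ 1
  ind : ∀ v ∈ O, ∀ w ∈ O, ∀ b b', f b v = v → v ∉ oc b → f b' w = w → w ∉ oc b' →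
    E.Adj v w → ∃ b'', f b'' v = w
  sup : ∀ b i, |(sgn (nd (cl b)) f i b : ℝ)| ≤ (d : ℝ) ^ (1 / 200 : ℝ)
  win : ∀ j i, ∑ b with cl b = j, |(sgn (nd j) f i b : ℝ) - sdg (H j) (nd j) i /
    ((D j : ℝ) - r j)| ≤ (1 + ε) * ((D j : ℝ) - r j) + C₀ * ((∑ v ∈ nod (nd j) i,
      ((nb (H j) v).card : ℝ)) / d) + ε * m j i + ε * d
  winP : ∀ j i', ∑ b with cl b = j, |sgP (nd j) pr f i' b - (∑ i with pr i = i',
    sdg (H j) (nd j) i) / ((D j : ℝ) - r j)| ≤ (1 + ε) * ((D j : ℝ) - r j) + ε * d +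
      ∑ i with pr i = i', (C₀ * ((∑ v ∈ nod (nd j) i, ((nb (H j) v).card : ℝ)) / d) +
        ε * m j i + ε * d)
  sm : ∀ j i, |∑ b with cl b = j, (sgn (nd j) f i b : ℝ) - sdg (H j) (nd j) i| ≤
    C₀ * ((∑ v ∈ nod (nd j) i, ((nb (H j) v).card : ℝ)) / d) + ε * m j i + ε * d
  exc : ∀ j i, ∑ b with cl b = j, max (|(sgn (nd j) f i b : ℝ) - sdg (H j) (nd j) i /
    ((D j : ℝ) - r j)| - 5 / 2) 0 ≤ C₀ * ((∑ v ∈ nod (nd j) i, ((nb (H j) v).card : ℝ)) / d) +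
      ε * m j i + ε * d
  load : ∀ b i s, (((nsd (nd (cl b)) i s).filter fun v => f b v ≠ v).card : ℝ) ≤
    C₀ * ((∑ v ∈ nsd (nd (cl b)) i s, ((nb (H (cl b)) v).card : ℝ)) / d) + ε2 * d
  lft : ∀ j v, nd j v ≠ none → ((nb (H j) v).card : ℝ) ≤
    ((univ.filter fun b => cl b = j ∧ f b v ≠ v).card : ℝ) +
      C₀ * (r j / d) * (∑ j', ((nb (H j') v).card : ℝ)) + ε2 * r j

end Defs

/-- TOKH: TOKN with star tests. `X u` = relevant colours of `u ∈ VH` (tests see only these). Star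
edges may be left without colour. -/
def Stmt_TOKH : Prop :=
  ∀ a ε C : ℝ, 0 < a → a ≤ 1 / 100 → 0 < ε → 1 ≤ C → ∃ e : ℝ, 0 < e ∧
    ∀ C' : ℝ, 1 ≤ C' → ∃ d0 : ℕ, ∀ {V I I' J τ : Type u} [Fintype V] [Fintype I] [Fintype I']
      [Fintype J] [Fintype τ] (E S : SimpleGraph V) (O VH : Finset V)
      (nd : V → Option (I × Bool)) (pr : I → I') (D P r : ℕ) (k : J → V → ℝ)
      (X : V → Finset (Fin P)) (g : τ → V → V → Fin P → ℝ) (h : τ → V → V → ℝ) (σ : τ → ℝ),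
      d0 ≤ D → (∀ i', (univ.filter fun i => pr i = i').card ≤ 2) →
      (∀ v ∈ O, nd v = none) → (∀ i s, ((nsd nd i s).card : ℝ) ≤ C' * D) →
      (D : ℝ) ≤ 2 * P → P ≤ D + 1 → r ≤ D → (∀ v, (nb S v).card ≤ r + 2) →
      (∀ v, (nb E v).card + 1 ≤ P) → (∀ v ∈ O, P ≤ (nb E v).card + 5) →
      (∀ v, nd v ≠ none → 8 * (nb E v).card ≤ D) → TstN O k D a C e →
      (∀ v, (insert v (nb E v) ∩ VH).card ≤ 2) → StT g h σ D a →
      ∃ N : Fin P → V → V, Mts E N ∧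
        (∀ v w, E.Adj v w → v ∉ VH → w ∉ VH → ∃ b, N b v = w) ∧
        (∀ b v, (((nb S v ∩ O).filter fun w => N b w = w).card : ℝ) ≤ sp D a) ∧
        (∀ i b, |(sgn nd N i b : ℝ) - (∑ b', (sgn nd N i b' : ℝ)) / P| ≤ sp D a) ∧
        (∀ i, ∑ b, |(sgn nd N i b : ℝ) - (∑ b', (sgn nd N i b' : ℝ)) / P| ≤ (1 + ε) * P) ∧
        (∀ i, ∑ b, max (|(sgn nd N i b : ℝ) - (∑ b', (sgn nd N i b' : ℝ)) / P| - 2) 0 ≤ ε * P) ∧
        (∀ i', ∑ b, |(∑ i with pr i = i', (sgn nd N i b : ℝ)) -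
          (∑ b', ∑ i with pr i = i', (sgn nd N i b' : ℝ)) / P| ≤ (1 + ε) * P) ∧
        (∀ i s b, (((nsd nd i s).filter fun v => N b v ≠ v).card : ℝ) ≤
          8 * ((∑ v ∈ nsd nd i s, ((nb E v).card : ℝ)) / P) + sp D a) ∧
        (∀ j, ∑ b, |(∑ x ∈ O.filter (fun x => N b x = x), k j x) -
          (∑ x ∈ O, k j x * ((univ.filter fun b => N b x = x).card : ℝ)) / P| ≤ ε) ∧
        (∀ t, ∑ u ∈ VH, ∑ b ∈ X u, (if N b u = u then 0 else g t u (N b u) b) ≤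
          4 / P * (∑ u ∈ VH, ∑ x ∈ nb E u, ∑ b ∈ X u, g t u x b) + σ t * sp D a) ∧
        ∀ t, ∑ u ∈ VH, ∑ x ∈ (nb E u).filter (fun x => ¬ ∃ b, N b u = x), h t u x ≤
          ε / P * (∑ u ∈ VH, ∑ x ∈ nb E u, ((X u).card : ℝ) * h t u x) + σ t * sp D a

/-- OXBH: reserves and matchings. `U` = vertices with own colours, without those of `VH`. -/
def Stmt_OXBH : Prop :=
  ∀ a c1 : ℝ, 0 < a → a ≤ 1 / 100 → 0 < c1 → c1 ≤ 1 → ∃ C1 : ℝ, 0 < C1 ∧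
    ∀ e ε1 CO : ℝ, 0 < e → 0 < ε1 → ε1 ≤ 1 → 1 ≤ CO → ∃ MS δ β : ℝ, 1 ≤ MS ∧ 0 < δ ∧ 0 < β ∧
    ∀ ρ0 ρ2 C C' : ℝ, 0 < ρ2 → ρ2 ≤ ρ0 → ρ0 ≤ β → ρ0 ≤ ε1 / 1000 → 1 ≤ C → C ≤ C' → ∃ d0 : ℕ,
    ∀ {V I I' J : Type u} [Fintype V] [Fintype I] [Fintype I'] [Fintype J] (P : ℕ)
      (cl : Fin P → J) (E Hm : SimpleGraph V) (H Gh : J → SimpleGraph V) (O W U VH : Finset V)
      (A Ex : J → Finset V) (X : V → Finset (Fin P)) (nd : J → V → Option (I × Bool))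
      (pr : I → I') (d : ℕ) (D r : J → ℕ) (g : ℝ), d0 ≤ d →
      (d : ℝ) ^ (-(a / 200)) ≤ g → g ≤ 1 →
      Cls H Gh O W A Ex nd pr d D r a MS g δ β c1 C C' ρ0 → (∀ j, H j ≤ E) → HDa E Hm VH X →
      VH ⊆ W → (∀ j i, ((VH ∩ nod (nd j) i).card : ℝ) ≤ C') →
      (∀ j, (univ.filter fun b => cl b = j).card + r j = D j) →
      (∀ j, ∀ z ∈ O, z ∉ U → z ∉ VH → (D j : ℝ) ≤ CO * ((nb (H j) z \ O).card : ℝ)) →
      ∃ (S : J → SimpleGraph V) (K : Finset V) (L : ℕ) (N0 N : Fin P → V → V), 2 ≤ L ∧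
        (L : ℝ) ≤ (d : ℝ) ^ (a / 30) ∧
        ClsH (fun j => H j \ Hm) (fun j => Gh j \ Hm) O W VH A nd pr d D r a β C C' ∧
        (∀ j, ResH (H j \ Hm) (Gh j \ Hm) (S j) O (A j) (D j) (r j) a (2 * β + 8 * ρ0)
          (8 * ρ2) K) ∧
        (∀ j, Krn (S j) O (r j) L (D j) a C1 e) ∧
        (∀ j, Flw (H j \ Hm) (S j) O U (r j) L (e * d)) ∧
        Mt0H (fun j => H j \ Hm) S cl O VH X nd pr d D r a ε1 (1000 * C' ^ 2 * ρ0) L N0 ∧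
        Mt1 S cl W nd N0 N

/-- OWNH: own colours of `U`, with forbidden colours `Fb`, conflict graph and caps. -/
def Stmt_OWNH : Prop :=
  ∃ s a0 : ℝ, 1 ≤ s ∧ 0 < a0 ∧ ∀ a C C1 e2 : ℝ, 0 < a → a ≤ a0 → a ≤ 1 / 100 → 1 ≤ C → 0 < C1 →
    0 < e2 → ∃ e C3 : ℝ, 0 < e ∧ 1 ≤ C3 ∧ ∀ β C' ρ1 βS ρ2 : ℝ, ∃ d0 : ℕ,
    ∀ {V I I' J Y : Type u} [Fintype V] [Fintype I] [Fintype I'] [Fintype J] [Fintype Y] (P : ℕ)
      (cl : Fin P → J) (E Cf : SimpleGraph V) (H Gh S : J → SimpleGraph V)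
      (O W U VH K : Finset V) (A : J → Finset V) (X Fb : V → Finset (Fin P))
      (nd : J → V → Option (I × Bool)) (pr : I → I') (d : ℕ)
      (D r : J → ℕ) (L : ℕ) (N0 N : Fin P → V → V) (Z : Y → Finset V), d0 ≤ d →
      ClsH H Gh O W VH A nd pr d D r a β C C' → HDa E ⊥ VH X →
      (∀ j, (univ.filter fun b => cl b = j).card + r j = D j) → ∑ j, D j = d → U ⊆ O →
      (∀ v ∈ U, v ∉ VH) → (∀ v, (nb E v).card ≤ d) → (∀ v ∈ U, (nb E v).card = d) →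
      (∀ v w, E.Adj v w → v ∈ W) → (∀ j, H j ≤ E) →
      (∀ v ∈ O, (((nb E v ∩ O).filter fun w => ∀ j, ¬ (H j).Adj v w).card : ℝ) ≤ C) →
      (∀ v ∈ U, (d : ℝ) ^ (2 - a / 100) ≤ ((mis E (nb E v)).card : ℝ)) →
      (∀ v w, Cf.Adj v w → v ∈ U) → (∀ v, 2 * (nb Cf v).card ≤ (nb E v \ U).card) → Cap d Z →
      (∀ v, (Fb v).card ≤ 2) →
      (∀ j, ResH (H j) (Gh j) (S j) O (A j) (D j) (r j) a βS ρ2 K) →
      (∀ j, Krn (S j) O (r j) L (D j) a C1 e) → (∀ j, Flw (H j) (S j) O U (r j) L (e * d)) →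
      Mt0H H S cl O VH X nd pr d D r a e ρ1 L N0 → Mt1 S cl W nd N0 N →
      ∃ (c : V → Option (Fin P)) (Dr : Fin P → Finset V),
        Own1H E H S cl O U VH X Fb nd d r (10 * s * a) C3 3 e2 e2 L c Dr N ∧
        (∀ v w, Cf.Adj v w → c v ≠ c w) ∧
        ∀ y b, (((Z y).filter (fun v => c v = some b)).card : ℝ) ≤
          Real.log d ^ 4 * (1 + ((Z y).card : ℝ) / d)

/-- OXCH: labels, `Km`, engine. -/
def Stmt_OXCH : Prop :=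
  ∃ ε₀ C₀ : ℝ, 0 < ε₀ ∧ ε₀ ≤ 1 / 2500 ∧ 0 < C₀ ∧
    ∀ a a1 C C1 C3 ε : ℝ, 0 < a → a ≤ a1 → a1 ≤ 1 / 100 → a1 ≤ ε₀ → 4 ≤ C → 0 < C1 → 1 ≤ C3 →
    0 < ε → ε ≤ 1 →
    ∃ e ε1 : ℝ, 0 < e ∧ 0 < ε1 ∧ ε1 ≤ 1 ∧ ∀ β C' C2 ρ1 βS ρ2 : ℝ, ∃ d0 : ℕ,
    ∀ {V I I' J : Type u} [Fintype V] [Fintype I] [Fintype I'] [Fintype J] (P : ℕ)
      (cl : Fin P → J) (E : SimpleGraph V) (H Gh S : J → SimpleGraph V) (O W U VH K : Finset V)
      (A : J → Finset V) (X Fb : V → Finset (Fin P)) (nd : J → V → Option (I × Bool))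
      (pr : I → I') (d : ℕ) (D r : J → ℕ) (L : ℕ) (N0 N : Fin P → V → V)
      (c : V → Option (Fin P)) (Dr : Fin P → Finset V), d0 ≤ d →
      ClsH H Gh O W VH A nd pr d D r a β C C' → HDa E ⊥ VH X →
      (∀ j, (univ.filter fun b => cl b = j).card + r j = D j) → P ≤ d →
      (∀ v, (nb E v).card ≤ d) → (∀ v w, E.Adj v w → v ∈ W) → (∀ j, H j ≤ E) →
      (∀ v ∈ O, (((nb E v ∩ O).filter fun w => ∀ j, ¬ (H j).Adj v w).card : ℝ) ≤ C) →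
      2 ≤ L → (L : ℝ) ≤ (d : ℝ) ^ (a / 30) →
      (∀ j, ResH (H j) (Gh j) (S j) O (A j) (D j) (r j) a βS ρ2 K) →
      (∀ j, Krn (S j) O (r j) L (D j) a C1 e) →
      Mt0H H S cl O VH X nd pr d D r a ε1 ρ1 L N0 → Mt1 S cl W nd N0 N →
      Own1H E H S cl O U VH X Fb nd d r a1 C3 C2 e ε1 L c Dr N →
      ∃ (Km : Finset V) (F : Fin P → V → V),
        OutO (GG E O S N) S cl O (nnj nd) d r ε ε₀ C₀ ((d : ℝ) ^ (10 * ε₀)) (rcl N0) (ocH c X)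
          (cutN Dr N) Km F

/-- OXDH: the dummies are dropped. `W` = real vertices. -/
def Stmt_OXDH : Prop :=
  ∀ ε₀ C₀ C C2 C3 ε : ℝ, 0 < ε₀ → ε₀ ≤ 1 / 2500 → 0 < C₀ → 4 ≤ C → 0 < C2 → 1 ≤ C3 → 0 < ε →
    ε ≤ 1 →
    ∃ C4 : ℝ, 0 < C4 ∧ ∀ a a1 β C' ρ1 βS ρ2 ε1 ε2 : ℝ, 0 < a → a ≤ a1 → a1 ≤ 1 / 100 →
    0 < ε1 → ε1 ≤ ε / 4 → 0 < ρ1 → 4 * ρ1 ≤ ε → 0 < ε2 → 2 * ρ2 ≤ ε2 → ∃ d0 : ℕ,
    ∀ {W Y I I' J : Type u} [Fintype W] [Fintype Y] [Fintype I] [Fintype I'] [Fintype J] (P : ℕ)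
      (cl : Fin P → J) (E : SimpleGraph W) (H : J → SimpleGraph W)
      (Gh S : J → SimpleGraph (W ⊕ Y)) (O U VH : Finset W) (K Km : Finset (W ⊕ Y))
      (A : J → Finset (W ⊕ Y)) (X Fb : W ⊕ Y → Finset (Fin P))
      (nd : J → W ⊕ Y → Option (I × Bool)) (pr : I → I') (d : ℕ)
      (D r : J → ℕ) (L : ℕ) (N0 N F : Fin P → W ⊕ Y → W ⊕ Y)
      (c : W ⊕ Y → Option (Fin P)) (Dr : Fin P → Finset (W ⊕ Y)),
      d0 ≤ d →
      ClsH (fun j => (H j).map Function.Embedding.inl) Gh (O.map Function.Embedding.inl)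
        (univ.map Function.Embedding.inl) (VH.map Function.Embedding.inl) A nd pr d D r a β C C' →
      HDa (E.map Function.Embedding.inl) ⊥ (VH.map Function.Embedding.inl) X →
      (∀ j, (univ.filter fun b => cl b = j).card + r j = D j) → (∀ j, H j ≤ E) →
      (∀ j, ResH ((H j).map Function.Embedding.inl) (Gh j) (S j)
          (O.map Function.Embedding.inl) (A j) (D j) (r j) a βS ρ2 K) →
      Mt0H (fun j => (H j).map Function.Embedding.inl) S cl (O.map Function.Embedding.inl)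
        (VH.map Function.Embedding.inl) X nd pr d D r a ε1 ρ1 L N0 →
      Mt1 S cl (univ.map Function.Embedding.inl) nd N0 N →
      Own1H (E.map Function.Embedding.inl) (fun j => (H j).map Function.Embedding.inl) S cl
        (O.map Function.Embedding.inl) (U.map Function.Embedding.inl)
        (VH.map Function.Embedding.inl) X Fb nd d r a1 C3 C2 1 ε1 L c Dr N →
      OutO (GG (E.map Function.Embedding.inl) (O.map Function.Embedding.inl) S N) S cl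
        (O.map Function.Embedding.inl) (nnj nd) d r (ε / 4) ε₀ C₀ ((d : ℝ) ^ (10 * ε₀)) (rcl N0)
        (ocH c X) (cutN Dr N) Km F →
      ∃ f : Fin P → W → W, (∀ b v w, v ≠ w → (f b v = w ↔ F b (Sum.inl v) = Sum.inl w)) ∧
        RlH E H cl O (fun j v => nd j (Sum.inl v)) pr d D r
          (fun j i => (nsd (nd j) i false).card) ε ε2 C4
          (fun b => univ.filter fun v => (Sum.inl v : W ⊕ Y) ∈ ocH c X b) f

end Pool.Agent.Work.MP_db9399_h
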